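import Mathlib

/-!
# Sandpile dynamics with parallel firing on a digraph with a clock

`clock M F`: the digraph with vertices `inl k` (`k ≤ M`, the clock), `inr (some w)` and the sink
`inr none`; the arcs go from `inl k` to `inl (k + 1)` (or to the sink if `k = M`) and to the `w` in
`F k`, and from every `inr (some w)` to the sink. With the initial configuration `start M F` the firing
sets are `{inl t} ∪ F (t - 1)`.
-/

set_option autoImplicit false

namespace Pool.Agent.Q135.AV

open Finset Sum

section general

variable {V : Type} [Fintype V]

open Classical in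
/-- the out-degree -/
noncomputable def outdeg (G : V → V → Prop) (v : V) : ℕ := (univ.filter fun w => G v w).card

open Classical in
/-- the firing set of a configuration: the vertices which are not sinks and are unstable -/
noncomputable def firing (G : V → V → Prop) (c : V → ℕ) : Finset V :=
  univ.filter fun v => 0 < outdeg G v ∧ outdeg G v ≤ c v

open Classical in
/-- one step of the parallel dynamics -/
noncomputable def step (G : V → V → Prop) (c : V → ℕ) : V → ℕ := fun v =>
  (c v - if v ∈ firing G c then outdeg G v else 0) + ((firing G c).filter fun u => G u v).card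

/-- the configuration at time `t` -/
noncomputable def conf (G : V → V → Prop) (c₀ : V → ℕ) : ℕ → V → ℕ
  | 0 => c₀
  | t + 1 => step G (conf G c₀ t)

/-- the avalanche complex: the nonempty subsets of the firing sets -/
def avalanche (G : V → V → Prop) (c₀ : V → ℕ) : Set (Finset V) :=
  {s | s.Nonempty ∧ ∃ t, s ⊆ firing G (conf G c₀ t)}

/-- the underlying undirected graph is connected -/
def WeaklyConnected (G : V → V → Prop) : Prop := (SimpleGraph.fromRel G).Connected

/-- the geometric realization of a complex on the vertex set `V`: the points of the simplices -/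
def realization (K : Set (Finset V)) : Set (V → ℝ) :=
  {x | (∀ v, 0 ≤ x v) ∧ ∑ v, x v = 1 ∧ ∃ s ∈ K, ∀ v, x v ≠ 0 → v ∈ s}

theorem realization_avalanche (G : V → V → Prop) (c₀ : V → ℕ) (x : V → ℝ) :
    x ∈ realization (avalanche G c₀) ↔
      (∀ v, 0 ≤ x v) ∧ ∑ v, x v = 1 ∧ ∃ t, ∀ v, x v ≠ 0 → v ∈ firing G (conf G c₀ t) := by
  constructor
  · rintro ⟨h0, h1, s, ⟨_, t, ht⟩, hs⟩
    exact ⟨h0, h1, t, fun v hv => ht (hs v hv)⟩
  · rintro ⟨h0, h1, t, ht⟩
    refine ⟨h0, h1, firing G (conf G c₀ t), ⟨?_, t, Subset.refl _⟩, ht⟩
    by_contra hc
    rw [not_nonempty_iff_eq_empty] at hc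
    have h2 : ∑ v, x v = 0 := Finset.sum_eq_zero fun v _ => by
      by_contra h3
      have := ht v h3
      rw [hc] at this
      exact absurd this (Finset.notMem_empty _)
    rw [h2] at h1
    exact zero_ne_one h1

end general

variable {W : Type} [Fintype W] (M : ℕ) (F : ℕ → Finset W)

/-- the digraph -/
def clock : (Fin (M + 1) ⊕ Option W) → (Fin (M + 1) ⊕ Option W) → Prop
  | inl k, inl l => l.val = k.val + 1
  | inl k, inr (some w) => w ∈ F k.val
  | inl k, inr none => k.val = M
  | inr (some _), inr none => True
  | inr (some _), inl _ => False
  | inr (some _), inr (some _) => False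
  | inr none, _ => False

/-- the vertices `w` firing at time `t` -/
def prev : ℕ → Finset W
  | 0 => F M
  | t + 1 => F t

open Classical in
/-- the initial configuration -/
noncomputable def start : (Fin (M + 1) ⊕ Option W) → ℕ
  | inl k => if k.val = 0 then (F k.val).card + 1 else (F k.val).card
  | inr (some w) => if w ∈ F M then 1 else 0
  | inr none => 0

open Classical in
theorem outdeg_inl (k : Fin (M + 1)) : outdeg (clock M F) (inl k) = (F k.val).card + 1 := by
  unfold outdeg
  rw [Finset.card_filter, Fintype.sum_sum_type, Fintype.sum_option]
  have h1 : (∑ l : Fin (M + 1), if clock M F (inl k) (inl l) then 1 else 0) =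
      if k.val = M then 0 else 1 := by
    by_cases hk : k.val = M
    · rw [if_pos hk]
      refine Finset.sum_eq_zero fun l _ => if_neg ?_
      have := l.isLt
      simp only [clock]
      omega
    · rw [if_neg hk]
      have hk' := k.isLt
      rw [Finset.sum_eq_single (⟨k.val + 1, by omega⟩ : Fin (M + 1))]
      · simp [clock]
      · intro l _ hl
        refine if_neg fun h => hl (Fin.ext h)
      · intro h; exact absurd (mem_univ _) h
  have h2 : (∑ w : W, if clock M F (inl k) (inr (some w)) then 1 else 0) = (F k.val).card := by
    rw [← Finset.card_filter]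
    congr 1
    ext w
    rw [Finset.mem_filter]
    exact ⟨fun h => h.2, fun h => ⟨mem_univ _, h⟩⟩
  have h3 : (if clock M F (inl k) (inr (none : Option W)) then 1 else 0) =
      if k.val = M then 1 else 0 := by
    by_cases hk : k.val = M <;> simp [clock, hk]
  rw [h1, h2, h3]
  by_cases hk : k.val = M
  · rw [if_pos hk, if_pos hk]; ring
  · rw [if_neg hk, if_neg hk]; ring

open Classical in
theorem outdeg_some (w : W) : outdeg (clock M F) (inr (some w)) = 1 := by
  unfold outdeg
  rw [Finset.card_filter, Fintype.sum_sum_type, Fintype.sum_option]
  simp [clock]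

open Classical in
theorem outdeg_none : outdeg (clock M F) (inr (none : Option W)) = 0 := by
  unfold outdeg
  rw [Finset.card_filter, Fintype.sum_sum_type, Fintype.sum_option]
  simp [clock]

open Classical in
/-- the state at time `t` -/
def State (t : ℕ) (c : (Fin (M + 1) ⊕ Option W) → ℕ) : Prop :=
  (∀ k : Fin (M + 1), c (inl k) =
    if t < k.val then (F k.val).card else if t = k.val then (F k.val).card + 1 else 0) ∧
  ∀ w, c (inr (some w)) = if w ∈ prev M F t then 1 else 0

variable {M F}

theorem mem_firing_inl {t : ℕ} {c : (Fin (M + 1) ⊕ Option W) → ℕ} (h : State M F t c)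
    (k : Fin (M + 1)) : (inl k) ∈ firing (clock M F) c ↔ k.val = t := by
  classical
  unfold firing
  rw [Finset.mem_filter, outdeg_inl, h.1 k]
  constructor
  · rintro ⟨_, _, h1⟩
    by_contra h2
    by_cases h3 : t < k.val
    · rw [if_pos h3] at h1; omega
    · rw [if_neg h3, if_neg (by omega)] at h1; omega
  · intro h1
    refine ⟨mem_univ _, by omega, ?_⟩
    rw [if_neg (by omega), if_pos h1.symm]

theorem mem_firing_some {t : ℕ} {c : (Fin (M + 1) ⊕ Option W) → ℕ} (h : State M F t c)
    (w : W) : (inr (some w)) ∈ firing (clock M F) c ↔ w ∈ prev M F t := by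
  classical
  unfold firing
  rw [Finset.mem_filter, outdeg_some, h.2 w]
  by_cases h1 : w ∈ prev M F t
  · simp [h1]
  · simp [h1]

theorem notMem_firing_none (c : (Fin (M + 1) ⊕ Option W) → ℕ) :
    (inr none) ∉ firing (clock M F) c := by
  classical
  unfold firing
  rw [Finset.mem_filter, outdeg_none]
  simp

open Classical in
theorem state_step (hF : ∀ t, M < t → F t = ∅) {t : ℕ} {c : (Fin (M + 1) ⊕ Option W) → ℕ}
    (h : State M F t c) : State M F (t + 1) (step (clock M F) c) := by
  constructor
  · intro k
    unfold step
    have h1 : ((firing (clock M F) c).filter fun u => clock M F u (inl k)).card =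
        if k.val = t + 1 then 1 else 0 := by
      rw [← Finset.filter_univ_mem (firing (clock M F) c), Finset.filter_filter, Finset.card_filter,
        Fintype.sum_sum_type, Fintype.sum_option]
      simp only [mem_firing_inl h, clock, and_false, if_false, Finset.sum_const_zero, add_zero]
      by_cases hk : k.val = t + 1
      · rw [if_pos hk]
        have hk' := k.isLt
        rw [Finset.sum_eq_single (⟨t, by omega⟩ : Fin (M + 1))]
        · simp [hk]
        · intro l _ hl
          refine if_neg fun h => hl (Fin.ext h.1)
        · intro h; exact absurd (mem_univ _) h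
      · rw [if_neg hk]
        refine Finset.sum_eq_zero fun l _ => if_neg ?_
        rintro ⟨h2, h3⟩
        omega
    rw [h1, h.1 k, outdeg_inl]
    simp only [mem_firing_inl h k]
    by_cases h2 : k.val = t
    · rw [if_neg (by omega), if_pos (by omega), if_pos h2, if_neg (by omega), if_neg (by omega),
        if_neg (by omega)]
      omega
    · by_cases h3 : t < k.val
      · rw [if_pos h3, if_neg h2]
        by_cases h4 : k.val = t + 1
        · rw [if_pos h4, if_neg (by omega), if_pos (by omega)]
          omega
        · rw [if_neg h4, if_pos (by omega)]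
          omega
      · rw [if_neg h3, if_neg (by omega), if_neg h2, if_neg (by omega), if_neg (by omega),
          if_neg (by omega)]
  · intro w
    unfold step
    have h1 : ((firing (clock M F) c).filter fun u => clock M F u (inr (some w))).card =
        if w ∈ F t then 1 else 0 := by
      rw [← Finset.filter_univ_mem (firing (clock M F) c), Finset.filter_filter, Finset.card_filter,
        Fintype.sum_sum_type, Fintype.sum_option]
      simp only [mem_firing_inl h, clock, and_false, if_false, Finset.sum_const_zero, add_zero]
      by_cases ht : t ≤ M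
      · rw [Finset.sum_eq_single (⟨t, by omega⟩ : Fin (M + 1))]
        · simp
        · intro l _ hl
          refine if_neg fun h => hl (Fin.ext h.1)
        · intro h; exact absurd (mem_univ _) h
      · rw [hF t (by omega), if_neg (Finset.notMem_empty _)]
        refine Finset.sum_eq_zero fun l _ => if_neg ?_
        rintro ⟨h2, h3⟩
        have := l.isLt
        omega
    rw [h1, h.2 w, outdeg_some]
    by_cases h2 : w ∈ prev M F t
    · rw [if_pos h2, if_pos ((mem_firing_some h w).2 h2)]
      by_cases h3 : w ∈ F t <;> simp [prev, h3]
    · rw [if_neg h2, if_neg (fun h3 => h2 ((mem_firing_some h w).1 h3))]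
      by_cases h3 : w ∈ F t <;> simp [prev, h3]

theorem state_conf (hF : ∀ t, M < t → F t = ∅) (t : ℕ) :
    State M F t (conf (clock M F) (start M F) t) := by
  classical
  induction t with
  | zero =>
    constructor
    · intro k
      simp only [conf, start]
      by_cases hk : k.val = 0
      · rw [if_pos hk, if_neg (by omega), if_pos hk.symm]
      · rw [if_neg hk, if_pos (by omega)]
    · intro w
      by_cases h3 : w ∈ F M <;> simp [conf, start, prev, h3]
  | succ t ih => exact state_step hF ih

end Pool.Agent.Q135.AV
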