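import Pool.Agent.Q135.AV.Dyn

/-!
# The avalanche complex of the clock digraph

The avalanche complex of the clock digraph of `F 0, …, F M` consists of the simplices with vertex sets
`F k`, each of which is joined to one further vertex. Its realization is homotopy equivalent to the
realization of the complex with the simplices `F k`.
-/

set_option autoImplicit false

namespace Pool.Agent.Q135.AV

open Finset Sum ContinuousMap

variable {W : Type} [Fintype W] {M : ℕ} {F : ℕ → Finset W}

/-- extension by zero -/
def incl (M : ℕ) (x : W → ℝ) : (Fin (M + 1) ⊕ Option W) → ℝ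
  | inl _ => 0
  | inr (some w) => x w
  | inr none => 0

open Classical in
/-- the retraction which sends `inl k` to `r k` -/
noncomputable def retr (r : Fin (M + 1) → W) (y : (Fin (M + 1) ⊕ Option W) → ℝ) : W → ℝ :=
  fun w => y (inr (some w)) + ∑ k, if r k = w then y (inl k) else 0

theorem continuous_incl : Continuous (incl M : (W → ℝ) → _) := by
  refine continuous_pi fun v => ?_
  rcases v with k | (_ | w)
  · exact continuous_const
  · exact continuous_const
  · exact continuous_apply w

theorem continuous_retr (r : Fin (M + 1) → W) : Continuous (retr r) := by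
  classical
  refine continuous_pi fun w => ?_
  unfold retr
  refine (continuous_apply _).add (continuous_finset_sum _ fun k _ => ?_)
  by_cases h : r k = w
  · simp only [if_pos h]
    exact continuous_apply _
  · simp only [if_neg h]
    exact continuous_const

theorem sum_incl (x : W → ℝ) : ∑ v, incl M x v = ∑ w, x w := by
  rw [Fintype.sum_sum_type, Fintype.sum_option]
  simp [incl]

theorem sum_retr (r : Fin (M + 1) → W) (y : (Fin (M + 1) ⊕ Option W) → ℝ)
    (hy : y (inr none) = 0) : ∑ w, retr r y w = ∑ v, y v := by
  classical
  unfold retr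
  rw [Finset.sum_add_distrib, Finset.sum_comm, Fintype.sum_sum_type, Fintype.sum_option, hy,
    zero_add, add_comm]
  congr 1
  refine Finset.sum_congr rfl fun k _ => ?_
  rw [Finset.sum_ite_eq, if_pos (mem_univ _)]

theorem retr_incl (r : Fin (M + 1) → W) (x : W → ℝ) : retr r (incl M x) = x := by
  funext w
  simp [retr, incl]

/-- the facets `F 0, …, F M` -/
def facets (M : ℕ) (F : ℕ → Finset W) : Set (Finset W) :=
  {s | s.Nonempty ∧ ∃ k, k ≤ M ∧ s ⊆ F k}

theorem incl_mem (hF : ∀ t, M < t → F t = ∅) {x : W → ℝ} (hx : x ∈ realization (facets M F)) :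
    incl M x ∈ realization (avalanche (clock M F) (start M F)) := by
  obtain ⟨h0, h1, s, ⟨_, k, _, hs⟩, hx⟩ := hx
  rw [realization_avalanche]
  refine ⟨?_, ?_, k + 1, ?_⟩
  · rintro (k | (_ | w))
    · exact le_refl _
    · exact le_refl _
    · exact h0 w
  · rw [sum_incl, h1]
  · rintro (k | (_ | w)) hv
    · exact absurd rfl hv
    · exact absurd rfl hv
    · rw [mem_firing_some (state_conf hF _)]
      exact hs (hx w hv)

theorem retr_supp (hF : ∀ t, M < t → F t = ∅) {r : Fin (M + 1) → W}
    (hr : ∀ k, r k ∈ prev M F k.val) {y : (Fin (M + 1) ⊕ Option W) → ℝ} {t : ℕ}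
    (hy : ∀ v, y v ≠ 0 → v ∈ firing (clock M F) (conf (clock M F) (start M F) t)) (w : W)
    (hw : retr r y w ≠ 0) : w ∈ prev M F t := by
  classical
  by_contra hc
  refine hw ?_
  unfold retr
  have h1 : y (inr (some w)) = 0 := by
    by_contra h
    exact hc ((mem_firing_some (state_conf hF _) w).1 (hy _ h))
  rw [h1, zero_add]
  refine Finset.sum_eq_zero fun k _ => ?_
  by_cases hk : r k = w
  · rw [if_pos hk]
    by_contra h
    have h2 := (mem_firing_inl (state_conf hF _) k).1 (hy _ h)
    have h3 := hr k
    rw [h2, hk] at h3
    exact hc h3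
  · rw [if_neg hk]

theorem retr_mem (hF : ∀ t, M < t → F t = ∅) (hne : ∀ t, t ≤ M → (F t).Nonempty)
    {r : Fin (M + 1) → W} (hr : ∀ k, r k ∈ prev M F k.val)
    {y : (Fin (M + 1) ⊕ Option W) → ℝ}
    (hy : y ∈ realization (avalanche (clock M F) (start M F))) :
    retr r y ∈ realization (facets M F) := by
  classical
  rw [realization_avalanche] at hy
  obtain ⟨h0, h1, t, ht⟩ := hy
  have hnone : y (inr none) = 0 := by
    by_contra h
    exact notMem_firing_none _ (ht _ h)
  have hsum : ∑ w, retr r y w = 1 := by rw [sum_retr r y hnone, h1]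
  refine ⟨?_, hsum, ?_⟩
  · intro w
    unfold retr
    refine add_nonneg (h0 _) (Finset.sum_nonneg fun k _ => ?_)
    by_cases hk : r k = w
    · rw [if_pos hk]; exact h0 _
    · rw [if_neg hk]
  · have hsupp := retr_supp hF hr ht
    have key : ∃ k, k ≤ M ∧ prev M F t = F k := by
      rcases t with _ | t
      · exact ⟨M, le_refl _, rfl⟩
      · by_cases h2 : t ≤ M
        · exact ⟨t, h2, rfl⟩
        · exfalso
          have h3 : ∑ w, retr r y w = 0 := Finset.sum_eq_zero fun w _ => by
            by_contra h4
            have h5 := hsupp w h4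
            rw [prev, hF t (by omega)] at h5
            exact absurd h5 (Finset.notMem_empty _)
          rw [h3] at hsum
          exact zero_ne_one hsum
    obtain ⟨k, hk, hk2⟩ := key
    refine ⟨F k, ⟨hne k hk, k, hk, Subset.refl _⟩, fun w hw => ?_⟩
    rw [← hk2]
    exact hsupp w hw

theorem line_mem (hF : ∀ t, M < t → F t = ∅) {r : Fin (M + 1) → W}
    (hr : ∀ k, r k ∈ prev M F k.val) {y : (Fin (M + 1) ⊕ Option W) → ℝ}
    (hy : y ∈ realization (avalanche (clock M F) (start M F))) {s : ℝ} (hs0 : 0 ≤ s)
    (hs1 : s ≤ 1) : (fun v => (1 - s) * y v + s * incl M (retr r y) v) ∈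
      realization (avalanche (clock M F) (start M F)) := by
  classical
  rw [realization_avalanche] at hy ⊢
  obtain ⟨h0, h1, t, ht⟩ := hy
  have hnone : y (inr none) = 0 := by
    by_contra h
    exact notMem_firing_none _ (ht _ h)
  refine ⟨?_, ?_, t, ?_⟩
  · intro v
    refine add_nonneg (mul_nonneg (by linarith) (h0 v)) (mul_nonneg hs0 ?_)
    rcases v with k | (_ | w)
    · exact le_refl _
    · exact le_refl _
    · change 0 ≤ retr r y w
      unfold retr
      refine add_nonneg (h0 _) (Finset.sum_nonneg fun k _ => ?_)
      by_cases hk : r k = w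
      · rw [if_pos hk]; exact h0 _
      · rw [if_neg hk]
  · rw [Finset.sum_add_distrib, ← Finset.mul_sum, ← Finset.mul_sum, sum_incl,
      sum_retr r y hnone, h1]
    ring
  · intro v hv
    by_cases hyv : y v = 0
    · have h2 : incl M (retr r y) v ≠ 0 := by
        intro h3
        apply hv
        rw [hyv, h3]
        ring
      rcases v with k | (_ | w)
      · exact absurd rfl h2
      · exact absurd rfl h2
      · rw [mem_firing_some (state_conf hF _)]
        exact retr_supp hF hr ht w h2
    · exact ht v hyv

/-- **The avalanche complex of the clock digraph.** -/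
theorem clock_equiv (hF : ∀ t, M < t → F t = ∅) (hne : ∀ t, t ≤ M → (F t).Nonempty) :
    Nonempty (realization (avalanche (clock M F) (start M F)) ≃ₕ realization (facets M F)) := by
  have hpr : ∀ k : Fin (M + 1), (prev M F k.val).Nonempty := by
    rintro ⟨k, hk⟩
    rcases k with _ | k
    · exact hne M (le_refl _)
    · exact hne k (by omega)
  choose r hr using hpr
  let f : C(realization (avalanche (clock M F) (start M F)), realization (facets M F)) :=
    ⟨fun y => ⟨retr r y.1, retr_mem hF hne hr y.2⟩,
      ((continuous_retr r).comp continuous_subtype_val).subtype_mk _⟩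
  let g : C(realization (facets M F), realization (avalanche (clock M F) (start M F))) :=
    ⟨fun x => ⟨incl M x.1, incl_mem hF x.2⟩,
      (continuous_incl.comp continuous_subtype_val).subtype_mk _⟩
  refine ⟨⟨f, g, ?_, ?_⟩⟩
  · symm
    refine ⟨⟨⟨fun p => ⟨fun v => (1 - (p.1 : ℝ)) * p.2.1 v + (p.1 : ℝ) * incl M (retr r p.2.1) v,
      line_mem hF hr p.2.2 p.1.2.1 p.1.2.2⟩, ?_⟩, ?_, ?_⟩⟩
    · refine Continuous.subtype_mk (continuous_pi fun v => ?_) _
      have h1 : Continuous fun p : unitInterval × realization (avalanche (clock M F) (start M F)) =>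
          (p.1 : ℝ) := continuous_subtype_val.comp continuous_fst
      have h2 : Continuous fun p : unitInterval × realization (avalanche (clock M F) (start M F)) =>
          p.2.1 := continuous_subtype_val.comp continuous_snd
      exact ((continuous_const.sub h1).mul ((continuous_apply v).comp h2)).add
        (h1.mul ((continuous_apply v).comp (continuous_incl.comp ((continuous_retr r).comp h2))))
    · intro x
      apply Subtype.ext
      funext v
      simp
    · intro x
      apply Subtype.ext
      funext v
      simp [f, g]
  · have h : f.comp g = ContinuousMap.id _ := by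
      ext x : 1
      apply Subtype.ext
      exact retr_incl r x.1
    rw [h]

theorem clock_irrefl (v : Fin (M + 1) ⊕ Option W) : ¬ clock M F v v := by
  rcases v with k | (_ | w) <;> simp [clock]

theorem clock_connected (hne : (F M).Nonempty) : WeaklyConnected (clock M F) := by
  classical
  unfold WeaklyConnected
  have hsink : ∀ v : Fin (M + 1) ⊕ Option W,
      (SimpleGraph.fromRel (clock M F)).Reachable v (inr none) := by
    have h1 : ∀ n : ℕ, ∀ k : Fin (M + 1), k.val + n = M →
        (SimpleGraph.fromRel (clock M F)).Reachable (inl k) (inr (none : Option W)) := by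
      intro n
      induction n with
      | zero =>
        intro k hk
        refine SimpleGraph.Adj.reachable ?_
        rw [SimpleGraph.fromRel_adj]
        exact ⟨by simp, Or.inl (by simpa [clock] using hk)⟩
      | succ n ih =>
        intro k hk
        have h2 := ih ⟨k.val + 1, by omega⟩ (by simp; omega)
        refine SimpleGraph.Reachable.trans (SimpleGraph.Adj.reachable ?_) h2
        rw [SimpleGraph.fromRel_adj]
        refine ⟨?_, Or.inl (by simp [clock])⟩
        intro h
        have h3 := congrArg Fin.val (Sum.inl.inj h)
        simp at h3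
    rintro (k | (_ | w))
    · have := k.isLt
      exact h1 (M - k.val) k (by omega)
    · exact SimpleGraph.Reachable.refl _
    · refine SimpleGraph.Adj.reachable ?_
      rw [SimpleGraph.fromRel_adj]
      exact ⟨by simp, Or.inl trivial⟩
  have : Nonempty (Fin (M + 1) ⊕ Option W) := ⟨inr none⟩
  exact SimpleGraph.Connected.mk fun u v => (hsink u).trans (hsink v).symm

end Pool.Agent.Q135.AV
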