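import Mathlib

/-!
# The sphere and the boundary of a simplex

`onSphere`: the unit sphere of `ℝ^(n+1)` is mapped bijectively and continuously onto the boundary of
the simplex with the `n + 2` vertices `none`, `some j` (`j ≤ n`); the point `e 0` goes to the
vertex `none`.
-/

set_option autoImplicit false

namespace Pool.Agent.Q135.AV

open Finset

variable {n : ℕ}

/-- the linear map `ℝ^(n+1) → ℝ^(n+2)` -/
noncomputable def hat (u : EuclideanSpace ℝ (Fin (n + 1))) : Option (Fin (n + 1)) → ℝ
  | none => u 0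
  | some j => if j = 0 then 0 else u j

/-- the minimum of the coordinates -/
noncomputable def mn (w : Option (Fin (n + 1)) → ℝ) : ℝ := univ.inf' ⟨none, mem_univ _⟩ w

/-- the sum of the coordinates after subtraction of the minimum -/
noncomputable def tot (w : Option (Fin (n + 1)) → ℝ) : ℝ := ∑ v, (w v - mn w)

/-- radial projection to the boundary of the simplex -/
noncomputable def nrm (w : Option (Fin (n + 1)) → ℝ) : Option (Fin (n + 1)) → ℝ :=
  fun v => (w v - mn w) / tot w

theorem mn_le (w : Option (Fin (n + 1)) → ℝ) (v) : mn w ≤ w v := Finset.inf'_le _ (mem_univ v)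

theorem exists_mn (w : Option (Fin (n + 1)) → ℝ) : ∃ v, mn w = w v := by
  obtain ⟨v, _, hv⟩ := Finset.exists_mem_eq_inf' (s := univ) ⟨none, mem_univ _⟩ w
  exact ⟨v, hv⟩

theorem mn_eq {w : Option (Fin (n + 1)) → ℝ} {a : ℝ} (h : ∀ v, a ≤ w v) (h' : ∃ v, w v = a) :
    mn w = a := by
  obtain ⟨v, hv⟩ := h'
  refine le_antisymm (hv ▸ mn_le w v) ?_
  obtain ⟨v', hv'⟩ := exists_mn w
  rw [hv']
  exact h v'

theorem mn_affine (w : Option (Fin (n + 1)) → ℝ) {c : ℝ} (hc : 0 < c) (a : ℝ) :
    mn (fun v => c * w v + a) = c * mn w + a := by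
  refine mn_eq (fun v => ?_) ?_
  · have := mul_le_mul_of_nonneg_left (mn_le w v) hc.le
    linarith
  · obtain ⟨v, hv⟩ := exists_mn w
    exact ⟨v, by rw [hv]⟩

theorem nrm_affine (w : Option (Fin (n + 1)) → ℝ) {c : ℝ} (hc : 0 < c) (a : ℝ) :
    nrm (fun v => c * w v + a) = nrm w := by
  have h1 : tot (fun v => c * w v + a) = c * tot w := by
    unfold tot
    rw [mn_affine w hc, Finset.mul_sum]
    refine Finset.sum_congr rfl fun v _ => ?_
    ring
  funext v
  unfold nrm
  rw [h1, mn_affine w hc]
  rw [show c * w v + a - (c * mn w + a) = c * (w v - mn w) by ring,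
    mul_div_mul_left _ _ hc.ne']

theorem nrm_self {x : Option (Fin (n + 1)) → ℝ} (h0 : ∀ v, 0 ≤ x v) (h1 : ∑ v, x v = 1)
    (h2 : ∃ v, x v = 0) : nrm x = x := by
  have h3 : mn x = 0 := mn_eq h0 h2
  have h4 : tot x = 1 := by
    unfold tot
    simp only [h3, sub_zero]
    exact h1
  funext v
  unfold nrm
  rw [h3, h4, sub_zero, div_one]

theorem tot_nonneg (w : Option (Fin (n + 1)) → ℝ) : 0 ≤ tot w :=
  Finset.sum_nonneg fun v _ => sub_nonneg.2 (mn_le w v)

theorem eq_zero_of_hat {u : EuclideanSpace ℝ (Fin (n + 1))} (h : ∀ v, hat u v = 0) : u = 0 := by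
  ext j
  by_cases hj : j = 0
  · subst hj
    exact h none
  · have := h (some j)
    simpa [hat, hj] using this

theorem tot_pos {u : EuclideanSpace ℝ (Fin (n + 1))} (hu : u ≠ 0) : 0 < tot (hat u) := by
  refine lt_of_le_of_ne (tot_nonneg _) fun h => hu ?_
  have h1 : ∀ v ∈ univ, hat u v - mn (hat u) = 0 :=
    (Finset.sum_eq_zero_iff_of_nonneg fun v _ => sub_nonneg.2 (mn_le _ v)).1 h.symm
  have h2 : mn (hat u) = 0 := by
    have := h1 (some 0) (mem_univ _)
    simp only [hat, if_true] at this
    linarith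
  refine eq_zero_of_hat fun v => ?_
  have := h1 v (mem_univ _)
  rw [h2, sub_zero] at this
  exact this

theorem nrm_nonneg (w : Option (Fin (n + 1)) → ℝ) (v) : 0 ≤ nrm w v :=
  div_nonneg (sub_nonneg.2 (mn_le w v)) (tot_nonneg w)

theorem sum_nrm {w : Option (Fin (n + 1)) → ℝ} (h : tot w ≠ 0) : ∑ v, nrm w v = 1 := by
  unfold nrm
  rw [← Finset.sum_div]
  exact div_self h

theorem exists_nrm_zero (w : Option (Fin (n + 1)) → ℝ) : ∃ v, nrm w v = 0 := by
  obtain ⟨v, hv⟩ := exists_mn w
  exact ⟨v, by unfold nrm; rw [hv, sub_self, zero_div]⟩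

theorem hat_smul (c : ℝ) (u : EuclideanSpace ℝ (Fin (n + 1))) (v) :
    hat (c • u) v = c * hat u v := by
  rcases v with _ | j
  · simp [hat]
  · by_cases hj : j = 0 <;> simp [hat, hj]

theorem nrm_hat_inj {u u' : EuclideanSpace ℝ (Fin (n + 1))} (hu : ‖u‖ = 1) (hu' : ‖u'‖ = 1)
    (h : nrm (hat u) = nrm (hat u')) : u = u' := by
  have hu0 : u ≠ 0 := fun h0 => by rw [h0, norm_zero] at hu; exact zero_ne_one hu
  have hu0' : u' ≠ 0 := fun h0 => by rw [h0, norm_zero] at hu'; exact zero_ne_one hu'
  have ht := tot_pos hu0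
  have ht' := tot_pos hu0'
  have key : ∀ (x : EuclideanSpace ℝ (Fin (n + 1))) (v), 0 < tot (hat x) →
      hat x v = tot (hat x) * (nrm (hat x) v - nrm (hat x) (some 0)) := by
    intro x v hx
    unfold nrm
    have h0 : hat x (some 0) = 0 := by simp [hat]
    rw [h0]
    field_simp
    ring
  have h1 : u - (tot (hat u) / tot (hat u')) • u' = 0 := by
    refine eq_zero_of_hat fun v => ?_
    have h2 : hat (u - (tot (hat u) / tot (hat u')) • u') v =
        hat u v - tot (hat u) / tot (hat u') * hat u' v := by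
      rcases v with _ | j
      · simp [hat]
      · by_cases hj : j = 0 <;> simp [hat, hj]
    rw [h2, key u v ht, key u' v ht', h]
    field_simp
    ring
  rw [sub_eq_zero] at h1
  have hc : 0 < tot (hat u) / tot (hat u') := div_pos ht ht'
  have h2 : tot (hat u) / tot (hat u') = 1 := by
    have h3 := congrArg norm h1
    rw [hu, norm_smul, hu', mul_one, Real.norm_of_nonneg hc.le] at h3
    exact h3.symm
  rw [h1, h2, one_smul]

theorem exists_nrm_hat {x : Option (Fin (n + 1)) → ℝ} (h0 : ∀ v, 0 ≤ x v) (h1 : ∑ v, x v = 1)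
    (h2 : ∃ v, x v = 0) :
    ∃ u : EuclideanSpace ℝ (Fin (n + 1)), ‖u‖ = 1 ∧ nrm (hat u) = x := by
  let u : EuclideanSpace ℝ (Fin (n + 1)) :=
    WithLp.toLp 2 fun j => if j = 0 then x none - x (some 0) else x (some j) - x (some 0)
  have hu : ∀ v, hat u v = x v - x (some 0) := by
    intro v
    rcases v with _ | j
    · simp [hat, u]
    · by_cases hj : j = 0
      · subst hj; simp [hat]
      · simp [hat, u, hj]
  have hu0 : u ≠ 0 := by
    intro h
    have h3 : ∀ v, x v = x (some 0) := by
      intro v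
      have h4 := hu v
      rw [h] at h4
      have h5 : hat (0 : EuclideanSpace ℝ (Fin (n + 1))) v = 0 := by
        rcases v with _ | j
        · simp [hat]
        · by_cases hj : j = 0 <;> simp [hat, hj]
      rw [h5] at h4
      linarith
    obtain ⟨v, hv⟩ := h2
    have h4 : ∑ v, x v = 0 := Finset.sum_eq_zero fun v' _ => by rw [h3 v', ← h3 v, hv]
    rw [h4] at h1
    exact zero_ne_one h1
  have hpos : 0 < ‖u‖ := norm_pos_iff.2 hu0
  refine ⟨‖u‖⁻¹ • u, ?_, ?_⟩
  · rw [norm_smul, norm_inv, norm_norm, inv_mul_cancel₀ hpos.ne']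
  · have h3 : hat (‖u‖⁻¹ • u) = fun v => ‖u‖⁻¹ * x v + (-(‖u‖⁻¹ * x (some 0))) := by
      funext v
      rw [hat_smul, hu v]
      ring
    rw [h3, nrm_affine x (inv_pos.2 hpos), nrm_self h0 h1 h2]

theorem continuous_hat : Continuous (hat : EuclideanSpace ℝ (Fin (n + 1)) → _) := by
  refine continuous_pi fun v => ?_
  rcases v with _ | j
  · simp only [hat]
    fun_prop
  · by_cases hj : j = 0
    · simp only [hat, hj, if_true]
      exact continuous_const
    · simp only [hat, hj, if_false]
      fun_prop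

theorem continuous_mn : Continuous (mn : (Option (Fin (n + 1)) → ℝ) → ℝ) := by
  unfold mn
  exact Continuous.finset_inf'_apply _ fun v _ => continuous_apply v

theorem continuous_tot : Continuous (tot : (Option (Fin (n + 1)) → ℝ) → ℝ) := by
  unfold tot
  exact continuous_finsetSum _ fun v _ => (continuous_apply v).sub continuous_mn

theorem continuous_nrm_hat (S : Set (EuclideanSpace ℝ (Fin (n + 1)))) (hS : ∀ u ∈ S, u ≠ 0) :
    Continuous fun u : S => nrm (hat u.1) := by
  have h1 : Continuous fun u : S => hat u.1 := continuous_hat.comp continuous_subtype_val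
  refine continuous_pi fun v => ?_
  unfold nrm
  exact (((continuous_apply v).comp h1).sub (continuous_mn.comp h1)).div (continuous_tot.comp h1)
    fun u => (tot_pos (hS _ u.2)).ne'

/-- the base point of the sphere -/
noncomputable def base (n : ℕ) : EuclideanSpace ℝ (Fin (n + 1)) := EuclideanSpace.single 0 1

theorem norm_base : ‖base n‖ = 1 := by simp [base]

theorem nrm_base : nrm (hat (base n)) = fun v => if v = none then 1 else 0 := by
  have h : hat (base n) = fun v => if v = none then 1 else 0 := by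
    funext v
    rcases v with _ | j
    · simp [hat, base]
    · by_cases hj : j = 0 <;> simp [hat, base, hj]
  rw [h]
  refine nrm_self (fun v => ?_) ?_ ⟨some 0, by simp⟩
  · split_ifs <;> norm_num
  · rw [Finset.sum_ite_eq' univ none, if_pos (mem_univ _)]

end Pool.Agent.Q135.AV
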