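import Pool.Agent.Q135.AV.Hom
import Pool.Agent.Q135.AV.Sph

/-!
# Wedges of spheres as complexes

`Wedge d`: the wedge of the spheres of dimensions `d i`. It is homeomorphic to the realization of the
complex `wedgeComplex d`, the boundaries of simplices of dimension `d i + 1` with one common vertex.
-/

set_option autoImplicit false

namespace Pool.Agent.Q135.AV

open Finset Sum

variable {m : ℕ} (d : Fin m → ℕ)

/-- a point and the unit spheres of `ℝ^(d i + 1)` -/
abbrev Spheres : Type :=
  Unit ⊕ Σ i : Fin m, Metric.sphere (0 : EuclideanSpace ℝ (Fin (d i + 1))) 1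

/-- the base point of the `i`-th sphere is the point -/
inductive Glue : Spheres d → Spheres d → Prop
  | mk (i : Fin m) (h : base (d i) ∈ Metric.sphere (0 : EuclideanSpace ℝ (Fin (d i + 1))) 1) :
      Glue (inr ⟨i, ⟨base (d i), h⟩⟩) (inl ())

/-- the wedge of the spheres of dimensions `d i` (a point if there are none) -/
def Wedge : Type := Quot (Glue d)

instance : TopologicalSpace (Wedge d) := inferInstanceAs (TopologicalSpace (Quot (Glue d)))

instance : CompactSpace (Wedge d) := by
  have h : ∀ i : Fin m, CompactSpace (Metric.sphere (0 : EuclideanSpace ℝ (Fin (d i + 1))) 1) :=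
    fun i => isCompact_iff_compactSpace.1 (isCompact_sphere _ _)
  have h2 : CompactSpace (Spheres d) := inferInstance
  exact inferInstanceAs (CompactSpace (Quot (Glue d)))

/-- the vertices: the common vertex and the other vertices of the simplices -/
abbrev Vert : Type := Option (Σ i : Fin m, Fin (d i + 1))

variable {d}

/-- the vertices of the `i`-th simplex -/
def emb (i : Fin m) : Option (Fin (d i + 1)) → Vert d
  | none => none
  | some j => some ⟨i, j⟩

theorem emb_inj (i : Fin m) : Function.Injective (emb (d := d) i) := by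
  rintro (_ | j) (_ | j') h
  · rfl
  · exact absurd h (by simp [emb])
  · exact absurd h (by simp [emb])
  · simp only [emb, Option.some.injEq, Sigma.mk.injEq, heq_eq_eq, true_and] at h
    rw [h]

theorem emb_ne {i i' : Fin m} (h : i ≠ i') (v : Option (Fin (d i + 1)))
    (v' : Option (Fin (d i' + 1))) (hv : emb (d := d) i v = emb i' v') : emb (d := d) i v = none := by
  rcases v with _ | j
  · rfl
  · rcases v' with _ | j'
    · exact hv
    · exfalso
      simp only [emb, Option.some.injEq, Sigma.mk.injEq] at hv
      exact h hv.1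

variable (d) in
open Classical in
/-- the boundaries of simplices of dimension `d i + 1` with one common vertex -/
def wedgeComplex : Set (Finset (Vert d)) :=
  {s | s.Nonempty ∧ (s ⊆ {none} ∨
    ∃ (i : Fin m) (v : Option (Fin (d i + 1))), s ⊆ (univ.image (emb i)).erase (emb i v))}

open Classical in
/-- push forward of a function on the vertices of the `i`-th simplex -/
noncomputable def psh (i : Fin m) (x : Option (Fin (d i + 1)) → ℝ) : Vert d → ℝ :=
  fun w => ∑ v, if emb i v = w then x v else 0

theorem psh_emb (i : Fin m) (x : Option (Fin (d i + 1)) → ℝ) (v) : psh i x (emb i v) = x v := by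
  classical
  unfold psh
  rw [Finset.sum_eq_single v]
  · rw [if_pos rfl]
  · intro v' _ hv'
    exact if_neg fun h => hv' (emb_inj i h)
  · intro h; exact absurd (mem_univ _) h

theorem psh_of_ne (i : Fin m) (x : Option (Fin (d i + 1)) → ℝ) {w : Vert d}
    (hw : ∀ v, emb i v ≠ w) : psh i x w = 0 := by
  classical
  unfold psh
  exact Finset.sum_eq_zero fun v _ => if_neg (hw v)

theorem sum_psh (i : Fin m) (x : Option (Fin (d i + 1)) → ℝ) : ∑ w, psh i x w = ∑ v, x v := by
  classical
  unfold psh
  rw [Finset.sum_comm]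
  refine Finset.sum_congr rfl fun v _ => ?_
  rw [Finset.sum_ite_eq, if_pos (mem_univ _)]

theorem psh_ne (i : Fin m) (x : Option (Fin (d i + 1)) → ℝ) {w : Vert d} (h : psh i x w ≠ 0) :
    ∃ v, emb i v = w ∧ x v ≠ 0 := by
  by_contra hc
  push Not at hc
  by_cases hw : ∃ v, emb i v = w
  · obtain ⟨v, hv⟩ := hw
    rw [← hv, psh_emb] at h
    exact h (hc v hv)
  · push Not at hw
    exact h (psh_of_ne i x hw)

theorem continuous_psh (i : Fin m) : Continuous (psh (d := d) i) := by
  classical
  refine continuous_pi fun w => ?_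
  unfold psh
  refine continuous_finsetSum _ fun v _ => ?_
  by_cases h : emb i v = w
  · simp only [if_pos h]
    exact continuous_apply _
  · simp only [if_neg h]
    exact continuous_const

/-- the point mass at the common vertex -/
noncomputable def pt : Vert d → ℝ := fun w => if w = none then 1 else 0

variable (d) in
/-- the map on the spheres -/
noncomputable def sph : Spheres d → Vert d → ℝ
  | inl _ => pt
  | inr ⟨i, u⟩ => psh i (nrm (hat u.1))

theorem sph_base (i : Fin m) (h) : sph d (inr ⟨i, ⟨base (d i), h⟩⟩) = pt := by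
  classical
  change psh i (nrm (hat (base (d i)))) = pt
  rw [nrm_base]
  funext w
  rcases w with _ | w
  · have := psh_emb (d := d) i (fun v => if v = none then 1 else 0) none
    rw [if_pos rfl] at this
    rw [pt, if_pos rfl]
    exact this
  · rw [pt, if_neg (by simp)]
    by_contra hc
    obtain ⟨v, hv, hv2⟩ := psh_ne i _ hc
    by_cases hv3 : v = none
    · subst hv3
      exact absurd hv (by simp [emb])
    · exact hv2 (if_neg hv3)

theorem sph_mem (a : Spheres d) : sph d a ∈ realization (wedgeComplex d) := by
  classical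
  rcases a with _ | ⟨i, u⟩
  · refine ⟨fun v => ?_, ?_, {none}, ⟨singleton_nonempty _, Or.inl (Subset.refl _)⟩, ?_⟩
    · change 0 ≤ (if v = none then (1 : ℝ) else 0)
      split_ifs <;> norm_num
    · change ∑ v, (if v = none then (1 : ℝ) else 0) = 1
      rw [Finset.sum_ite_eq' univ none, if_pos (mem_univ _)]
    · intro v hv
      by_contra hc
      rw [mem_singleton] at hc
      exact hv (if_neg hc)
  · have hu : ‖u.1‖ = 1 := mem_sphere_zero_iff_norm.1 u.2
    have hu0 : u.1 ≠ 0 := fun h => by rw [h, norm_zero] at hu; exact zero_ne_one hu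
    have h1 := sum_nrm (tot_pos hu0).ne'
    obtain ⟨v0, hv0⟩ := exists_nrm_zero (hat u.1)
    have hsupp : ∀ w, psh i (nrm (hat u.1)) w ≠ 0 →
        w ∈ (univ.image (emb (d := d) i)).erase (emb i v0) := by
      intro w hw
      obtain ⟨v, hv, hv2⟩ := psh_ne i _ hw
      rw [Finset.mem_erase, Finset.mem_image]
      refine ⟨fun h => hv2 ?_, v, mem_univ _, hv⟩
      rw [← hv] at h
      rw [emb_inj i h, hv0]
    refine ⟨fun w => ?_, ?_, (univ.image (emb i)).erase (emb i v0), ⟨?_, Or.inr ⟨i, v0,
      Subset.refl _⟩⟩, hsupp⟩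
    · change 0 ≤ psh i (nrm (hat u.1)) w
      unfold psh
      refine Finset.sum_nonneg fun v _ => ?_
      split_ifs
      · exact nrm_nonneg _ _
      · exact le_refl _
    · change ∑ w, psh i (nrm (hat u.1)) w = 1
      rw [sum_psh, h1]
    · by_contra hc
      rw [not_nonempty_iff_eq_empty] at hc
      rw [hc] at hsupp
      have h2 : ∑ w, psh i (nrm (hat u.1)) w = 0 := Finset.sum_eq_zero fun w _ => by
        by_contra h3
        exact absurd (hsupp w h3) (Finset.notMem_empty _)
      rw [sum_psh, h1] at h2
      exact one_ne_zero h2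

theorem continuous_sph : Continuous (sph d) := by
  have h : Continuous (Sum.elim (fun _ : Unit => (pt : Vert d → ℝ))
      (fun a : (Σ i : Fin m, Metric.sphere (0 : EuclideanSpace ℝ (Fin (d i + 1))) 1) =>
        psh a.1 (nrm (hat a.2.1)))) := by
    refine continuous_const.sumElim (continuous_sigma fun i => ?_)
    refine (continuous_psh i).comp (continuous_nrm_hat _ fun u hu h0 => ?_)
    rw [h0, mem_sphere_zero_iff_norm, norm_zero] at hu
    exact zero_ne_one hu
  have h2 : sph d = Sum.elim (fun _ : Unit => (pt : Vert d → ℝ))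
      (fun a : (Σ i : Fin m, Metric.sphere (0 : EuclideanSpace ℝ (Fin (d i + 1))) 1) =>
        psh a.1 (nrm (hat a.2.1))) := by
    funext a
    rcases a with _ | ⟨i, u⟩
    · rfl
    · rfl
  rw [h2]
  exact h

/-- only the base points go to the common vertex -/
theorem sph_eq_pt {i : Fin m} (u : Metric.sphere (0 : EuclideanSpace ℝ (Fin (d i + 1))) 1)
    (h : sph d (inr ⟨i, u⟩) = pt) : Quot.mk (Glue d) (inr ⟨i, u⟩) = Quot.mk (Glue d) (inl ()) := by
  have hb : base (d i) ∈ Metric.sphere (0 : EuclideanSpace ℝ (Fin (d i + 1))) 1 := by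
    rw [mem_sphere_zero_iff_norm]; exact norm_base
  have h1 : u.1 = base (d i) := by
    refine nrm_hat_inj (mem_sphere_zero_iff_norm.1 u.2) norm_base ?_
    rw [← sph_base i hb] at h
    change psh i (nrm (hat u.1)) = psh i (nrm (hat (base (d i)))) at h
    funext v
    have := congrFun h (emb i v)
    rwa [psh_emb, psh_emb] at this
  have h2 : u = ⟨base (d i), hb⟩ := Subtype.ext h1
  rw [h2]
  exact Quot.sound (Glue.mk i hb)

theorem sph_inj {a b : Spheres d} (h : sph d a = sph d b) : Quot.mk (Glue d) a = Quot.mk (Glue d) b := by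
  classical
  rcases a with _ | ⟨i, u⟩ <;> rcases b with _ | ⟨i', u'⟩
  · rfl
  · exact (sph_eq_pt u' h.symm).symm
  · exact sph_eq_pt u h
  · by_cases hi : i = i'
    · subst hi
      have h1 : u = u' := by
        apply Subtype.ext
        refine nrm_hat_inj (mem_sphere_zero_iff_norm.1 u.2) (mem_sphere_zero_iff_norm.1 u'.2) ?_
        change psh i (nrm (hat u.1)) = psh i (nrm (hat u'.1)) at h
        funext v
        have := congrFun h (emb i v)
        rwa [psh_emb, psh_emb] at this
      rw [h1]
    · have key : sph d (inr ⟨i, u⟩) = pt := by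
        have h0 : ∀ w, w ≠ none → sph d (inr ⟨i, u⟩) w = 0 := by
          intro w hw
          by_contra hc
          have hc' := hc
          rw [h] at hc'
          obtain ⟨v, hv, _⟩ := psh_ne i _ hc
          obtain ⟨v', hv', _⟩ := psh_ne i' _ hc'
          have := emb_ne hi v v' (hv.trans hv'.symm)
          exact hw (hv ▸ this)
        have hmem := sph_mem (d := d) (inr ⟨i, u⟩)
        obtain ⟨_, h1, _⟩ := hmem
        rw [Finset.sum_eq_single none (fun w _ hw => h0 w hw)
          (fun h => absurd (mem_univ _) h)] at h1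
        funext w
        by_cases hw : w = none
        · rw [hw, h1, pt, if_pos rfl]
        · rw [h0 w hw, pt, if_neg hw]
      rw [sph_eq_pt u key, sph_eq_pt u' (h ▸ key)]

theorem exists_sph {x : Vert d → ℝ} (hx : x ∈ realization (wedgeComplex d)) :
    ∃ a, sph d a = x := by
  classical
  obtain ⟨h0, h1, s, ⟨_, hs | ⟨i, v0, hs⟩⟩, hx⟩ := hx
  · refine ⟨inl (), ?_⟩
    have h2 : ∀ w, w ≠ none → x w = 0 := by
      intro w hw
      by_contra hc
      exact hw (mem_singleton.1 (hs (hx w hc)))
    rw [Finset.sum_eq_single none (fun w _ hw => h2 w hw)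
      (fun h => absurd (mem_univ _) h)] at h1
    funext w
    change (if w = none then (1 : ℝ) else 0) = x w
    by_cases hw : w = none
    · rw [if_pos hw, hw, h1]
    · rw [if_neg hw, h2 w hw]
  · have h2 : ∀ w, (∀ v, emb i v ≠ w) → x w = 0 := by
      intro w hw
      by_contra hc
      have h3 := Finset.mem_of_mem_erase (hs (hx w hc))
      rw [Finset.mem_image] at h3
      obtain ⟨v, _, hv⟩ := h3
      exact hw v hv
    have h3 : x (emb i v0) = 0 := by
      by_contra hc
      exact Finset.ne_of_mem_erase (hs (hx _ hc)) rfl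
    have h4 : psh i (fun v => x (emb i v)) = x := by
      funext w
      by_cases hw : ∃ v, emb i v = w
      · obtain ⟨v, hv⟩ := hw
        rw [← hv, psh_emb]
      · push Not at hw
        rw [psh_of_ne i _ hw, h2 w hw]
    have h5 : ∑ v, x (emb i v) = 1 := by
      rw [← sum_psh (d := d) i (fun v => x (emb i v)), h4, h1]
    obtain ⟨u, hu, hu2⟩ := exists_nrm_hat (x := fun v => x (emb i v)) (fun v => h0 _) h5 ⟨v0, h3⟩
    refine ⟨inr ⟨i, ⟨u, mem_sphere_zero_iff_norm.2 hu⟩⟩, ?_⟩
    change psh i (nrm (hat u)) = x
    rw [hu2, h4]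

variable (d) in
/-- the map on the wedge -/
noncomputable def wmap : Wedge d → realization (wedgeComplex d) :=
  Quot.lift (fun a => ⟨sph d a, sph_mem a⟩) (by
    rintro _ _ ⟨i, h⟩
    exact Subtype.ext (sph_base i h))

theorem wmap_continuous : Continuous (wmap d) :=
  continuous_quot_lift _ (Continuous.subtype_mk continuous_sph _)

theorem wmap_bijective : Function.Bijective (wmap d) := by
  constructor
  · intro a b h
    obtain ⟨a, rfl⟩ := Quot.exists_rep a
    obtain ⟨b, rfl⟩ := Quot.exists_rep b
    exact sph_inj (congrArg Subtype.val h)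
  · rintro ⟨x, hx⟩
    obtain ⟨a, ha⟩ := exists_sph hx
    exact ⟨Quot.mk _ a, Subtype.ext ha⟩

variable (d) in
/-- the wedge is homeomorphic to the realization of the complex -/
noncomputable def wedgeHomeo : Wedge d ≃ₜ realization (wedgeComplex d) :=
  Continuous.homeoOfEquivCompactToT2 (f := Equiv.ofBijective (wmap d) wmap_bijective)
    wmap_continuous

end Pool.Agent.Q135.AV
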